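import Pool.Agent.Results.MP_6dc9d1_nt.FixedNumberAllLayers
import Pool.Agent.Results.MP_787500_nt.LayersBlochKatoLaw
import Pool.Agent.V11291.HM.Tot

/-!
# The Bloch–Kato rank formula, `p = 2`, for the Hilbert modular forms of the twists of `X_0(14)` over the
# layers of the cyclotomic `ℤ₃`-extension and over their real quadratic extensions

`E_D` is the twist by `D` of the modular curve `E = E_1 = X_0(14)` (no complex multiplication).  Let `F`
be a totally real abelian field.  By base change there is a Hilbert modular newform `g` over `F`, of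
parallel weight two, with trivial central character and rational eigenvalues
`t_v(g) = a_v = N v + 1 - #E_D(k_v)` at the good places `v`; for this form `V_{g,2} = V_2 E_D` and
`L(g, s) = L(E_D/F, s + 1)`.  (This file is about `E_D` over `F`; the form `g` does not occur in it.)

The class `Adm` consists of the squarefree integers `D`, positive or negative, `1` modulo `4`, squares
modulo `7`, whose prime divisors split completely in `ℚ(i, √2, √-7)` or are inert in `ℚ(√2)` and in
`ℚ(√-7)`, and are inert in the cyclotomic `ℤ₃`-extension of `ℚ`.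

`D` has the property `AllLayers` if over each layer `K` of the cyclotomic `ℤ₃`-extension of `ℚ`, a totally
real field, `H¹_f(K, V_2 E_D) = 0` and `L(E_D/K, 1) ≠ 0`, and moreover `E_D(K)` is finite and
`Ш(E_D/K)[2] = 0`.  Then, if `D` is positive, the formula also holds over each of the totally real fields
`F = K(√D)`, for the form of `E`.

We fix the number `k` of the split prime divisors of `D` and the numbers `a`, `b` of the inert prime
divisors which are `3` and `5` modulo `8` (`D` is positive if and only if `a` is even), and an arbitrary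
set `S` of primes which contains a positive lower proportion of the primes of each of the kinds that
occur (no other condition).

Theorem.  Let `b` be even and `a + b ≥ 1`.  The number of the `D` of the class, `|D| ≤ X`, with exactly
`k`, `a`, `b` prime divisors of the three kinds, all of them in `S`, has the order of magnitude
`X (log log X)^(k + a + b - 1) / log X`, and the proportion of the `D` with the property `AllLayers` among
them tends to the rational number `∏_{i < (k + 1) / 2} (1 - 2^{-(2 i + 1)})`.

The proof: the files `FixedNumberAllLayers` of problem `MP_6dc9d1_nt` and `LayersBlochKatoLaw` of problem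
`MP_787500_nt`.  `H1f 2 W` (`Pool.Agent.Y667.BKP.H1f`, by helper667) is the group of the classes of the
continuous cocycles of the absolute Galois group with values in `V_2 W = T_2 W ⊗ ℚ_2` whose restriction
to the completion at every place is in the image of the Kummer map; this is the condition of Bloch and
Kato.
-/

set_option autoImplicit false

open Finset NumberField IsDedekindDomain Filter Topology

namespace Pool.Agent.Results.MP_6e2fc3_nt.FixedNumberHilbertForms

open scoped Classical

open Pool.Agent.TH841.NF.D (Sha)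

open Pool.Agent.Y667.BKP (H1f)

open Pool.Agent.Results.MP_6dc9d1_nt.FixedNumberAllLayers (twist base factor rank quadratic cyclotomic
  Adm R Degree Family Rich count proportion)

/-- The formula of the problem for `V_2 W`, `W` over `F`, with both sides zero: `H¹_f(F, V_2 W)` is zero,
and `L(W/F, s)` is entire and not zero at `s = 1`. -/
def Formula (F : Type) [Field F] [NumberField F] (W : WeierstrassCurve ℤ) : Prop :=
  (∀ x : H1f 2 (base W F), x = 0) ∧ ∃ L : ℂ → ℂ, Differentiable ℂ L ∧
    (∀ s : ℂ, 3 / 2 < s.re → HasProd (factor (K := F) W s) (L s)) ∧ L 1 ≠ 0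

/-- `K` is totally real, the formula holds for `E_D` over `K`, `E_D(K)` is finite and `Ш(E_D/K)` has no
element of order two. -/
def Good (K : Type) [Field K] [NumberField K] (D : ℤ) : Prop :=
  IsTotallyReal K ∧ Formula K (twist D) ∧ Finite (base (twist D) K).toAffine.Point ∧
    ∀ x : Sha (base (twist D) K), 2 • x = 0 → x = 0

/-- `Good K D` for all the layers `K` of the cyclotomic `ℤ₃`-extension of `ℚ` (`K` is a subfield of odd
degree of a `3 ^ (n + 1)`-th cyclotomic field). -/
def AllLayers (D : ℤ) : Prop := ∀ (n : ℕ) (M : Type) [Field M] [NumberField M]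
  [IsCyclotomicExtension {3 ^ (n + 1)} ℚ M] (K : IntermediateField ℚ M),
  Odd (Module.finrank ℚ K) → Good K D

/-- `F` is totally real, of degree twice the degree of `K`, and the formula holds for `X_0(14)` over
`F`. -/
def Holds (K F : Type) [Field K] [NumberField K] [Field F] [NumberField F] : Prop :=
  IsTotallyReal F ∧ Degree K F ∧ Formula F (twist 1)

/-- `Holds` for `F = K(√D)` and all the layers `K` of the cyclotomic `ℤ₃`-extension of `ℚ`. -/
def AllQuadratic (D : ℤ) : Prop :=
  ∀ (m : ℕ) (K F : IntermediateField ℚ ℂ) [NumberField K] [NumberField F],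
    K ≤ cyclotomic (3 ^ (m + 1)) → Odd (Module.finrank ℚ K) → F = quadratic D ⊔ K → Holds K F

/-- the law for the family -/
def Law (S : Set ℕ) (k a b : ℕ) : Prop :=
  (∃ (c C : ℝ) (X₀ : ℕ), 0 < c ∧ 0 < C ∧ ∀ X : ℕ, X₀ ≤ X →
    c * (X * Real.log (Real.log X) ^ (k + a + b - 1) / Real.log X) ≤ (count (Family S k a b) X : ℝ) ∧
    (count (Family S k a b) X : ℝ) ≤
      C * (X * Real.log (Real.log X) ^ (k + a + b - 1) / Real.log X)) ∧
  Tendsto (fun X : ℕ => (count (fun D => Family S k a b D ∧ AllLayers D) X : ℝ) /
    (count (Family S k a b) X : ℝ)) atTop (𝓝 (proportion k))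

lemma h1f_of (F : Type) [Field F] [NumberField F] (W : WeierstrassCurve ℤ) (hW : W.Δ ≠ 0)
    (hr : rank F W = 0) (m : ℕ)
    (hS : ∀ (k : ℕ) (x : Sha (base W F)), 2 ^ k • x = 0 → 2 ^ m • x = 0) :
    (∀ x : H1f 2 (base W F), x = 0) ∧ Finite (base W F).toAffine.Point := by
  refine ⟨(Pool.Agent.Results.MP_787500_nt.LayersBlochKatoLaw.both_zero F W hW hr m hS).2.2, ?_⟩
  have h1 : Module.Finite ℤ (base W F).toAffine.Point := Pool.Agent.Y682.YR.fgK hW
  exact Module.finite_of_fg_torsion _ (Module.finrank_eq_zero_iff_isTorsion.1 hr)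

lemma rank_fin (K : Type) [Field K] [NumberField K] (W : WeierstrassCurve ℤ)
    (h : Finite (base W K).toAffine.Point) : rank K W = 0 := by
  have h3 : Module.Finite ℤ (base W K).toAffine.Point := Module.Finite.of_finite
  show Module.finrank ℤ (base W K).toAffine.Point = 0
  rw [Module.finrank_eq_zero_iff_isTorsion]
  intro x
  exact ⟨⟨(Nat.card (base W K).toAffine.Point : ℤ),
    mem_nonZeroDivisors_of_ne_zero (by exact_mod_cast Nat.card_pos.ne')⟩, by
    show (Nat.card (base W K).toAffine.Point : ℤ) • x = 0
    rw [natCast_zsmul]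
    exact card_nsmul_eq_zero'⟩

lemma all_iff (D : ℤ) (hD : Adm D) : AllLayers D ↔
    Pool.Agent.Results.MP_6dc9d1_nt.FixedNumberAllLayers.AllLayers D := by
  constructor
  · intro h
    refine (Pool.Agent.Results.MP_6dc9d1_nt.FixedNumberAllLayers.all_iff D hD).2 ?_
    have hA := (Pool.Agent.Results.MP_f50388_nt.LayersMultiquadraticLaw.adm_iff D).1 hD
    rw [Pool.Agent.Results.MP_6dc9d1_nt.FixedNumberAllLayers.mat_eq D hD]
    have hz : NeZero (3 ^ (0 + 1)) := ⟨by norm_num⟩
    have hcyc : IsCyclotomicExtension {3 ^ (0 + 1)} ℚ (CyclotomicField (3 ^ (0 + 1)) ℚ) :=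
      CyclotomicField.isCyclotomicExtension (3 ^ (0 + 1)) ℚ
    have hodd : Odd (Module.finrank ℚ (⊥ : IntermediateField ℚ (CyclotomicField (3 ^ (0 + 1)) ℚ))) := by
      rw [IntermediateField.finrank_bot]
      exact odd_one
    obtain ⟨-, -, h1, h2⟩ := h 0 (CyclotomicField (3 ^ (0 + 1)) ℚ) ⊥ hodd
    exact (Pool.Agent.Y682.YQ.layer hA.1 hA.2 0 (CyclotomicField (3 ^ (0 + 1)) ℚ) ⊥ hodd).2.1.1
      ⟨rank_fin _ _ h1, h2⟩
  · intro h n M _ _ _ K hodd
    have hz : NeZero (3 ^ (n + 1)) := ⟨pow_ne_zero _ (by norm_num)⟩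
    obtain ⟨⟨h1, L, h2, h3, h4, -⟩, h5⟩ := h n M K hodd
    have h6 := h1f_of K (twist D) (Pool.Agent.Y682.YQ.wm_ne hD.2.1) h1 0 (fun m => by
      induction m with
      | zero => exact fun x hx => hx
      | succ m ih =>
        intro x hx
        rw [pow_succ', mul_smul] at hx
        exact ih x (h5 _ hx))
    exact ⟨Pool.Agent.V11291.HM.tr_layer (3 ^ (n + 1)) M K hodd, ⟨h6.1, L, h2, h3, h4⟩, h6.2, h5⟩

lemma tr_layerC (m : ℕ) (K : IntermediateField ℚ ℂ) [NumberField K]
    (hK : K ≤ cyclotomic (3 ^ (m + 1))) (hodd : Odd (Module.finrank ℚ K)) : IsTotallyReal K := by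
  obtain ⟨K₁, ⟨e⟩⟩ := Pool.Agent.Y682.YS.layer_iso m K hK
  have hz : NeZero (3 ^ (m + 1)) := ⟨pow_ne_zero _ (by norm_num)⟩
  have hc : IsCyclotomicExtension {3 ^ (m + 1)} ℚ (CyclotomicField (3 ^ (m + 1)) ℚ) :=
    CyclotomicField.isCyclotomicExtension (3 ^ (m + 1)) ℚ
  have hodd1 : Odd (Module.finrank ℚ K₁) := by
    rw [← e.toLinearEquiv.finrank_eq]
    exact hodd
  have h1 := Pool.Agent.V11291.HM.tr_layer (3 ^ (m + 1)) (CyclotomicField (3 ^ (m + 1)) ℚ) K₁ hodd1
  exact IsTotallyReal.ofRingEquiv e.symm.toRingEquiv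

lemma all_quadratic (D : ℤ) (hD : Adm D) (h0 : 0 < D) (h1 : D ≠ 1) (h : AllLayers D) :
    AllQuadratic D := by
  have h2 := Pool.Agent.Results.MP_6dc9d1_nt.FixedNumberAllLayers.all_quadratic D hD h1
    ((all_iff D hD).1 h)
  intro m K F _ _ hK hodd hF
  obtain ⟨h3, ⟨h4, L, h5, h6, h7, -⟩, -, h8⟩ := h2 m K F hK hodd hF
  have h9 : IsTotallyReal F := by
    have h10 := Pool.Agent.V11291.HM.tr_sup h0 K (tr_layerC m K hK hodd)
    rw [hF]
    exact h10
  have hW : (twist 1).Δ ≠ 0 := Pool.Agent.Y682.YQ.wm_ne (by norm_num)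
  have h11 := h1f_of F (twist 1) hW h4 1 fun k x hx => by
    have h12 := h8 x ⟨k, hx⟩
    rw [pow_one]
    exact h12
  exact ⟨h9, h3, h11.1, L, h5, h6, h7⟩

/-- **Main theorem.**
(1) A number `D` of the class has the property `AllLayers` if and only if the matrix `R D` is
nonsingular, and in this case, if `D > 0` and `D ≠ 1`, it has the property `AllQuadratic`.
(2) Let `b` be even, `a + b ≥ 1`, and let `S` be a set of primes which contains a positive lower
proportion of the primes of each of the kinds that occur.  Then the number of the `D` of the class with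
exactly `k`, `a`, `b` prime factors of the three kinds, all in `S`, and `|D| ≤ X` is between two positive
constants times `X (log log X)^(k + a + b - 1) / log X`, and the proportion of the `D` with the property
`AllLayers` among them tends to `∏_{i < (k + 1) / 2} (1 - 2^{-(2 i + 1)})`.
(3) The `D` of these families are positive if and only if `a` is even.
(4) The condition on `S` holds if `S` is the set of the numbers in a residue class `c` modulo `q`, with
`q` prime to `42` and `c` prime to `q`. -/
theorem result :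
    (∀ D : ℤ, Adm D → (AllLayers D ↔ (R D).det ≠ 0) ∧
      (0 < D → D ≠ 1 → AllLayers D → AllQuadratic D)) ∧
    (∀ (S : Set ℕ) (k a b : ℕ), Even b → 1 ≤ a + b → Rich S k a b → Law S k a b) ∧
    (∀ (S : Set ℕ) (k a b : ℕ) (D : ℤ), Family S k a b D → (0 < D ↔ Even a)) ∧
    ∀ q c : ℕ, Nat.Coprime q 42 → Nat.Coprime c q → ∀ k a b : ℕ, Rich {p | p % q = c % q} k a b := by
  obtain ⟨a1, a2, a3⟩ := Pool.Agent.Results.MP_6dc9d1_nt.FixedNumberAllLayers.result
  refine ⟨fun D hD => ⟨?_, fun h0 h1 h => all_quadratic D hD h0 h1 h⟩,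
    fun S k a b hb hab hS => ?_, fun S k a b D hD => ?_, a3⟩
  · rw [all_iff D hD]
    exact (a1 D hD).1
  · obtain ⟨b1, b2⟩ := a2 S k a b hb hab hS
    refine ⟨b1, b2.congr fun X => ?_⟩
    have e : (fun D => Family S k a b D ∧ AllLayers D) = fun D => Family S k a b D ∧
        Pool.Agent.Results.MP_6dc9d1_nt.FixedNumberAllLayers.AllLayers D := by
      funext D
      apply propext
      refine and_congr_right fun h => all_iff D h.1
    rw [e]
  · obtain ⟨h1, -, -, h3, -⟩ := hD
    have hA := (Pool.Agent.Results.MP_f50388_nt.LayersMultiquadraticLaw.adm_iff D).1 h1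
    have h6 := Pool.Agent.Y703.CQ.sign_iff hA.1
    rw [h6, ← h3, Nat.even_iff]
    exact Iff.rfl

end Pool.Agent.Results.MP_6e2fc3_nt.FixedNumberHilbertForms
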