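import Mathlib
import Pool.Agent.Results.MP_6e2fc3_nt.FixedNumberHilbertForms
import Pool.Agent.V11161.BH.ParZ

/-!
# The Bloch–Kato rank formula, `p = 2`, for Hilbert modular forms over the layers of the cyclotomic
# `ℤ₃`-extension and over their real quadratic extensions, along clusters of primes

`E_D` is the quadratic twist by `D` of the modular curve `E = E_1 = X_0(14)`. For a totally real abelian
field `F`, base change gives a Hilbert modular newform `g` over `F`, of parallel weight two, with trivial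
central character and rational eigenvalues, with `V_{g,2} = V_2 E_D` and `L(g, s) = L(E_D/F, s + 1)`.
(This file is about `E_D` over `F`; the form `g` does not occur in it.)

The hand-in `FixedNumberHilbertForms` of this problem defines the properties

* `AllLayers D`: over each layer `K` of the cyclotomic `ℤ₃`-extension of `ℚ`, a totally real field,
  `H¹_f(K, V_2 E_D) = 0`, `L(E_D/K, 1) ≠ 0`, `E_D(K)` is finite and `Ш(E_D/K)[2] = 0`;
* `AllQuadratic D`: for all these layers `K` the field `F = K(√D)` is totally real, of degree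
  `2 [K : ℚ]`, and `H¹_f(F, V_2 E) = 0`, `L(E/F, 1) ≠ 0`;

and a class `Adm` of squarefree numbers of any sign. Let `M` be ANY member of the class, and let `c` be
a class modulo `504 |M|`, prime to the modulus, of primes inert in `ℚ(√2)`, in `ℚ(√-7)` and in the
`ℤ₃`-extension. For all `k` and `η > 0` there are `z`, `d`, `C`, `X₀` and `ρ, b > 0`, which depend only
on `k` and `η`, such that for all `M`, all `c` and every `X ≥ X₀` there are frequencies `θ_1, …, θ_d`
with the following property. Let `B` be the Bohr set of all integers `|h| ≤ X` with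
`|exp (2 π i h θ_j) - 1| ≤ ρ` for all `j`; it has at least `b X` elements. Put `W = 504 |M| z!`. For at
least `(1 - η) |B| ^ k` of the vectors `(h_1, …, h_k)` in `B ^ k` (the entries being distinct and not
zero) and for arbitrarily large `N`, the same for all these vectors, there are at least
`N / (log N) ^ C` primes `p ≤ N` of the class such that `p_0 = p` and the `p_i = p + W h_i` are primes of
the class, and for all nonempty subsets `J` of the `k + 1` indices with an even number of elements, and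
for all nonempty `J` if `c` is `3` modulo `8` and a square modulo the split primes of `M`, the number
`D = M ∏_{i ∈ J} p_i*` (`x* = ± x`, `x* = 1` modulo `4`) is in the class, and

* `AllLayers D` if and only if `AllLayers M`, if and only if `E_M(ℚ)` is finite and `Ш(E_M/ℚ)[2] = 0`;
* if this is the case and `D > 0`, then `AllQuadratic D`.

So for one `M` with `E_M(ℚ)` finite and `Ш(E_M/ℚ)[2] = 0` (for instance `M = 1`) the formula holds for
the forms of all the `E_D` over all the layers `K`, and for the form of `E` over all the totally real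
fields `K(√D)`, the `D > 0` running over the vertices `J` of the cube, for almost all the configurations
of the primes in the Bohr set.

The criterion with the matrix `R D` and the implication from it to the two properties are those of
`FixedNumberHilbertForms` (by helper291). New here: the matrix of `M ∏ p_i*` is the one of `M`
(`Pool.Agent.V11161.BH.cluster_par9`), and the configurations of the primes
(`Pool.Agent.V11161.BH.bohrAPU`, uniform in the modulus).
-/

set_option autoImplicit false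

open Filter

namespace Pool.Agent.Results.MP_6e2fc3_nt.ClusterHilbertForms

open Pool.Agent.Results.MP_6e2fc3_nt.FixedNumberHilbertForms

open Pool.Agent.Results.MP_6dc9d1_nt.FixedNumberAllLayers (twist base pts Adm R)

open scoped Classical

/-- the group `E_M(ℚ)` is finite and `Ш(E_M/ℚ)` has no element of order two -/
def RankZeroShaTwo (M : ℤ) : Prop :=
  Finite (base (twist M) ℚ).toAffine.Point ∧
    ∀ x : Pool.Agent.TH841.SH.D.Sha (base (twist M) ℚ), 2 • x = 0 → x = 0

/-- `x* = ± x`, congruent to `1` modulo `4` for odd `x` -/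
def star (x : ℤ) : ℤ := if x % 4 = 1 then x else -x

/-- the numbers `p, p + W h_1, …, p + W h_k` -/
def members {k : ℕ} (W : ℕ) (h : Fin k → ℤ) (p : ℕ) : Fin (k + 1) → ℤ :=
  Fin.cons (p : ℤ) fun i => (p : ℤ) + W * h i

/-- the subsets `J` which are considered: nonempty, and with an even number of elements if `c` is not
`3` modulo `8` or not a square modulo one of the prime divisors `l = 1` modulo `8` of `M` -/
def Allowed {k : ℕ} (M : ℤ) (c : ℕ) (J : Finset (Fin (k + 1))) : Prop :=
  J.Nonempty ∧ (Even J.card ∨ (c % 8 = 3 ∧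
    ∀ l : ℕ, l.Prime → (l : ℤ) ∣ M → l % 8 = 1 → IsSquare (c : ZMod l)))

/-- `D` is in the class; the formula holds for `E_D` over all the layers if and only if this is so for
`E_M`, and if and only if `E_M(ℚ)` is finite and `Ш(E_M/ℚ)[2] = 0`; and in this case, if `D` is positive,
it holds for `E` over the totally real fields `K(√D)` for all the layers `K` -/
def Follows (M D : ℤ) : Prop :=
  Adm D ∧ (AllLayers D ↔ AllLayers M) ∧ (AllLayers D ↔ RankZeroShaTwo M) ∧
    (RankZeroShaTwo M → 0 < D → AllQuadratic D)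

/-- the primes `p ≤ N` of the class of `c` modulo `504 |M|` for which all the `p + W h_i` are primes of
the class and the statement holds for `M` and `M` times the product of the `x*`, `x` running through the
members of the cluster with indices in `J`, for all allowed `J` -/
def goodPrimes {k : ℕ} (M : ℤ) (c W : ℕ) (h : Fin k → ℤ) (N : ℕ) : Set ℕ :=
  {p : ℕ | p ≤ N ∧ p.Prime ∧ p % (504 * M.natAbs) = c % (504 * M.natAbs) ∧
    (∀ i, ∃ q : ℕ, q.Prime ∧ q % (504 * M.natAbs) = c % (504 * M.natAbs) ∧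
      (q : ℤ) = p + W * h i) ∧
    ∀ J : Finset (Fin (k + 1)), Allowed M c J → Follows M (M * ∏ i ∈ J, star (members W h p i))}

/-- the Bohr set of the frequencies `θ_j`, of radius `ρ` and width `X` -/
def bohrSet {d : ℕ} (θ : Fin d → ℝ) (ρ : ℝ) (X : ℕ) : Set ℤ :=
  {h : ℤ | |h| ≤ X ∧ ∀ j, ‖Complex.exp (2 * Real.pi * Complex.I * (h * θ j)) - 1‖ ≤ ρ}

lemma adm_iff' (D : ℤ) : Adm D ↔ (Pool.Agent.Y687.MQ.AdmD D ∧ Pool.Agent.Y682.YQ.H9 D) :=
  Pool.Agent.Results.MP_f50388_nt.LayersMultiquadraticLaw.adm_iff D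

lemma R_eq {D : ℤ} (hD : Adm D) : R D = Pool.Agent.Y687.MQ.matD D :=
  Pool.Agent.Results.MP_6dc9d1_nt.FixedNumberAllLayers.mat_eq D hD

lemma zer_iff {D : ℤ} : RankZeroShaTwo D ↔ Pool.Agent.Y682.YQ.Zer D := by
  unfold RankZeroShaTwo Pool.Agent.Y682.YQ.Zer
  refine and_congr Iff.rfl (forall_congr' fun x => ?_)
  rw [two_nsmul]
  rfl

lemma det_inst {n : Type} [Fintype n] (d₁ d₂ : DecidableEq n) (A : Matrix n n (ZMod 2)) :
    @Matrix.det n d₁ _ (ZMod 2) _ A = @Matrix.det n d₂ _ (ZMod 2) _ A := by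
  rw [Subsingleton.elim d₁ d₂]

/-- the determinant of `R D` in terms of the entries -/
lemma det_R (D : ℤ) : (R D).det = (Matrix.of fun i j : Pool.Agent.V11161.BH.spl D =>
    Pool.Agent.V11161.BH.ent (fun i => if 8 ∣ pts (twist 1) (ZMod i) + 1 then 0 else 1) D i j).det := by
  have e : R D = (Matrix.of fun i j : Pool.Agent.V11161.BH.spl D =>
    Pool.Agent.V11161.BH.ent (fun i => if 8 ∣ pts (twist 1) (ZMod i) + 1 then 0 else 1) D i j) := by
    ext i j
    unfold R Pool.Agent.V11161.BH.ent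
    simp only [Matrix.of_apply]
    by_cases hij : i = j
    · rw [if_pos hij, if_pos (congrArg Subtype.val hij)]
    · rw [if_neg hij, if_neg (fun h => hij (Subtype.ext h))]
  rw [e]
  exact det_inst _ _ _

lemma follows {M D : ℤ} (hM : Adm M) (hD : Adm D) (h1 : D ≠ 1) (hdet : (R D).det = (R M).det) :
    Follows M D := by
  obtain ⟨hres, -, -, -⟩ := FixedNumberHilbertForms.result
  have hM' : RankZeroShaTwo M ↔ (R M).det ≠ 0 := by
    rw [R_eq hM, zer_iff]
    exact Pool.Agent.Y682.YQ.zer_iff ((adm_iff' M).1 hM).1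
  have h2 : AllLayers D ↔ RankZeroShaTwo M := by
    rw [(hres D hD).1, hM', hdet]
  refine ⟨hD, ?_, h2, fun h3 h4 => (hres D hD).2 h4 h1 (h2.2 h3)⟩
  rw [(hres D hD).1, (hres M hM).1, hdet]

/-- a product of signed primes is not `1` -/
lemma ne_one {k : ℕ} {M : ℤ} {m : Fin (k + 1) → ℤ} (hm : ∀ i, ∃ q : ℕ, q.Prime ∧ (q : ℤ) = m i)
    {J : Finset (Fin (k + 1))} (hJ : J.Nonempty) : M * ∏ i ∈ J, star (m i) ≠ 1 := by
  intro h
  obtain ⟨i, hi⟩ := hJ
  obtain ⟨q, hq, hqm⟩ := hm i
  have h1 : star (m i) ∣ 1 := by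
    rw [← h]
    exact (Finset.dvd_prod_of_mem (fun i => star (m i)) hi).mul_left M
  have h2 : (q : ℤ) ∣ star (m i) := by
    rw [hqm]
    unfold star
    split_ifs
    · exact dvd_rfl
    · exact (dvd_neg.2 dvd_rfl)
  have h3 : (q : ℤ) ∣ 1 := h2.trans h1
  have h4 : q ∣ 1 := by exact_mod_cast h3
  exact hq.one_lt.ne' (Nat.dvd_one.1 h4)

open Pool.Agent.V11161.BH in
theorem classPrimes_sub {k : ℕ} {M : ℤ} (hM : Adm M) {c W : ℕ}
    (hcop : c.Coprime (504 * M.natAbs)) (hc8 : c % 8 = 3 ∨ c % 8 = 5)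
    (hc7 : c % 7 = 3 ∨ c % 7 = 5 ∨ c % 7 = 6)
    (hc9 : c % 9 = 2 ∨ c % 9 = 4 ∨ c % 9 = 5 ∨ c % 9 = 7) {h : Fin k → ℤ} (hh0 : ∀ i, h i ≠ 0)
    (hinj : Function.Injective h) (hW : 0 < W) (N : ℕ) :
    classPrimes (504 * M.natAbs) c W h N ⊆ goodPrimes M c W h N := by
  intro p hp
  refine ⟨hp.1, hp.2.1, hp.2.2.1, hp.2.2.2, fun J hJ => ?_⟩
  have hM' := (adm_iff' M).1 hM
  have hA : Adm14 M := hM'.1
  obtain ⟨g1, g2, g3, g4⟩ := cluster_par9 hA hM'.2 hcop hc8 hc7 hc9 hh0 hinj hW hp hJ.1 hJ.2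
    (fun i => if 8 ∣ pts (twist 1) (ZMod i) + 1 then 0 else 1)
  refine follows hM ((adm_iff' _).2 ⟨g1, g4⟩) (ne_one (fun i => ?_) hJ.1) ?_
  · refine Fin.cases ?_ (fun j => ?_) i
    · exact ⟨p, hp.2.1, rfl⟩
    · obtain ⟨q, hq, -, hq2⟩ := hp.2.2.2 j
      exact ⟨q, hq, hq2⟩
  · rw [det_R, det_R]
    exact g3

/-- **Main theorem.** The Bloch–Kato rank formula, `p = 2`, with both sides zero, for the twists by the
`D = M ∏_{i ∈ J} p_i*` over the layers `K` of the cyclotomic `ℤ₃`-extension and for `X_0(14)` over the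
totally real fields `K(√D)`, for almost all the configurations of the primes in a Bohr set; this is
decided by `E_M(ℚ)` and `Ш(E_M/ℚ)[2]`. -/
theorem result (k : ℕ) (η : ℝ) (hη : 0 < η) :
    ∃ (z d C X₀ : ℕ) (ρ b : ℝ), 0 < ρ ∧ 0 < b ∧
      ∀ M : ℤ, Adm M → ∀ c : ℕ, Nat.Coprime c (504 * M.natAbs) → (c % 8 = 3 ∨ c % 8 = 5) →
        (c % 7 = 3 ∨ c % 7 = 5 ∨ c % 7 = 6) → (c % 9 = 2 ∨ c % 9 = 4 ∨ c % 9 = 5 ∨ c % 9 = 7) →
        ∀ X : ℕ, X₀ ≤ X →
        ∃ (θ : Fin d → ℝ) (H : Finset (Fin k → ℤ)),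
          b * X ≤ ((bohrSet θ ρ X).ncard : ℝ) ∧
          (∀ h ∈ H, (∀ i, h i ∈ bohrSet θ ρ X ∧ h i ≠ 0) ∧ Function.Injective h) ∧
          (1 - η) * ((bohrSet θ ρ X).ncard : ℝ) ^ k ≤ (H.card : ℝ) ∧
          ∃ᶠ N : ℕ in atTop, ∀ h ∈ H, (N : ℝ) / (Real.log N) ^ C ≤
            ((goodPrimes M c (504 * M.natAbs * z.factorial) h N).ncard : ℝ) := by
  obtain ⟨z, d, C, X₀, ρ, b, hρ, hb, hS⟩ := Pool.Agent.V11161.BH.bohrAPU k η hη
  refine ⟨z, d, C, X₀, ρ, b, hρ, hb, fun M hM c hc hc8 hc7 hc9 X hX => ?_⟩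
  have hM0 : 0 < M.natAbs := Int.natAbs_pos.2 hM.1.ne_zero
  obtain ⟨θ, H, h1, h2, h3, h4⟩ := hS (504 * M.natAbs) (by omega) c hc X hX
  refine ⟨θ, H, h1, h2, h3, h4.mono fun N hN h hh => (hN h hh).trans ?_⟩
  rw [Nat.cast_le]
  refine Set.ncard_le_ncard (classPrimes_sub hM hc hc8 hc7 hc9 (fun i => ((h2 h hh).1 i).2)
    (h2 h hh).2 (Nat.mul_pos (by omega) z.factorial_pos) N) ((Set.finite_Iic N).subset fun p hp => hp.1)

end Pool.Agent.Results.MP_6e2fc3_nt.ClusterHilbertForms
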