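import Pool.Agent.V11288.HS.CentreX
import Pool.Agent.V11288.HS.EC

/-!
# The central order of the L-functions of Hilbert modular forms and the critical line

Let `g` be a Hilbert newform over a totally real field `F` as in the Bloch–Kato rank formula (weights
`(k_1, …, k_d, 2)`, all `k_i` even, trivial central character, level `𝔫`), with Hecke eigenvalues `t_v`,
`|t_v| ≤ 2√q_v`, and let `L(s) = L(g, s)`, centre `s = 0`, be its L-function, where the Euler factors
`(1 - t_v q_v^{-s-1} + q_v^{-2s-1})⁻¹` are taken over a set `S` of primes `v ∤ 𝔫` containing almost all primes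
(the missing factors have no zeros and poles for `Re s ≥ 0`). It is entire, of polynomial growth in right half
planes. Write `p_k(v) = α_v^k + β_v^k` for the roots `α_v`, `β_v` of `X² - t_v X + q_v`, and let

`log P(Y) = ∑_{v ∈ S, q_v^k ≤ Y} p_k(v)/(k q_v^k)`,

the partial Euler products at the centre over all finite fields with at most `Y` elements. For real `ρ` and
`A > 0` let `D(ρ, A) = ∫_1^∞ (log P(Y) + ρ (γ + log log Y) - log A)² dY/Y ∈ [0, ∞]`. It is shown:

1. `D(ρ, A) < ∞` if and only if `L` has no zeros with `Re s > 0` (the Riemann hypothesis for `g`), `ρ` is the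
   order of `L` at `0` and `A` is the leading coefficient: `L(s)/s^ρ → A` for `s → 0`.

2. In this case `D(ρ, A) = (1/π) ∫_{-∞}^∞ (log |L(it)| - ρ log |t| - log A)² dt/t²`.

3. Hence for every integer `ρ` (for example `ρ = dim H¹_f(F, V_{g,λ})`) the following are equivalent: `L` has no
   zeros with `Re s > 0` and the order `ρ` at `0`; `D(ρ, A) < ∞` for some `A > 0`; the two integrals in (2) are
   finite and equal for some `A > 0`.
-/

set_option autoImplicit false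

namespace Pool.Agent.Results.MP_6e2fc3_nt.CriticalLineFormula

open Filter Topology Set NumberField IsDedekindDomain MeasureTheory

variable {F : Type} [Field F] [NumberField F]

/-- The norm `q_v` of a prime. -/
noncomputable def nrm (v : HeightOneSpectrum (𝓞 F)) : ℕ := Ideal.absNorm v.asIdeal

/-- `p_k = α^k + β^k` for the roots `α`, `β` of `X² - tX + q`. -/
noncomputable def powerSum (t q : ℝ) : ℕ → ℝ
  | 0 => 2
  | 1 => t
  | k + 2 => t * powerSum t q (k + 1) - q * powerSum t q k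

variable {S : Set (HeightOneSpectrum (𝓞 F))}

/-- `L(s)` is the L-function with the eigenvalues `t_v`, `v ∈ S`: `|t_v| ≤ 2√q_v`, `L(s)` is the product of the
Euler factors `(1 - t_v q_v^{-s-1} + q_v^{-2s-1})⁻¹` for `Re s > 1/2`, and it is holomorphic of polynomial growth
on `Re s > -η` for some `η > 0`. -/
structure IsLFunction (t : S → ℝ) (L : ℂ → ℂ) : Prop where
  bound : ∀ v : S, |t v| ≤ 2 * √(nrm v.1)
  prod : ∀ s : ℂ, 1 / 2 < s.re → HasProd (fun v : S =>
    (1 - (t v : ℂ) * (nrm v.1 : ℂ) ^ (-s - 1) + (nrm v.1 : ℂ) ^ (-2 * s - 1))⁻¹) (L s)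
  continuation : ∃ (η C : ℝ) (κ : ℕ), 0 < η ∧ ∀ s : ℂ, -η < s.re →
    DifferentiableAt ℂ L s ∧ ‖L s‖ ≤ C * (1 + ‖s‖) ^ κ

/-- `log P(Y)`: the sum of `p_k(v)/(k q_v^k)` over `v ∈ S` and `k ≥ 1` (here `k = i.2 + 1`) with
`q_v^k ≤ Y`. -/
noncomputable def logP (t : S → ℝ) (Y : ℝ) : ℝ :=
  ∑ᶠ (i : S × ℕ) (_ : (nrm i.1.1 : ℝ) ^ (i.2 + 1) ≤ Y),
    powerSum (t i.1) (nrm i.1.1) (i.2 + 1) / (((i.2 : ℝ) + 1) * (nrm i.1.1 : ℝ) ^ (i.2 + 1))

/-- The mean square deviation `D(ρ, A) = ∫_1^∞ (log P(Y) + ρ (γ + log log Y) - log A)² dY/Y ∈ [0, ∞]`. -/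
noncomputable def meanSquare (t : S → ℝ) (ρ A : ℝ) : ENNReal :=
  ∫⁻ Y in Ioi (1 : ℝ), ENNReal.ofReal
    ((logP t Y + ρ * (Real.eulerMascheroniConstant + Real.log (Real.log Y)) - Real.log A) ^ 2 / Y)

/-- `(1/π) ∫_{-∞}^∞ (log |L(it)| - ρ log |t| - log A)² dt/t² ∈ [0, ∞]`. -/
noncomputable def criticalLine (L : ℂ → ℂ) (ρ A : ℝ) : ENNReal :=
  ENNReal.ofReal Real.pi⁻¹ * ∫⁻ t : ℝ, ENNReal.ofReal
    ((Real.log ‖L (t * Complex.I)‖ - ρ * Real.log |t| - Real.log A) ^ 2 / t ^ 2)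

/-- `L` has no zeros with `Re s > 0`. -/
def NoZeros (L : ℂ → ℂ) : Prop := ∀ s : ℂ, 0 < s.re → L s ≠ 0

/-- `L` has the order `k` and the leading coefficient `A` at `0`: `L(s)/s^k → A`. -/
def LeadingAt (L : ℂ → ℂ) (k : ℤ) (A : ℝ) : Prop :=
  Tendsto (fun s : ℂ => L s / s ^ k) (𝓝[≠] 0) (𝓝 (A : ℂ))

open Pool.Agent.V11288 Pool.Agent.TH942.ES

theorem q_two (v : HeightOneSpectrum (𝓞 F)) : (2 : ℝ) ≤ nrm v := by
  unfold nrm
  exact_mod_cast Pool.Agent.H921R2.TatePole.two_le_nm v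

/-- the normalised trace -/
noncomputable def tau (t : S → ℝ) (v : S) : ℝ := t v / (2 * √(nrm v.1))

/-- the roots -/
noncomputable def al (t : S → ℝ) (v : S) (j : Fin 2) : ℂ :=
  rt (tau t v) j * ((√(nrm v.1 : ℝ) : ℝ) : ℂ)

theorem sqrt_pos' (v : S) : 0 < √(nrm v.1 : ℝ) := by
  have := q_two v.1
  positivity

theorem tau_abs {t : S → ℝ} {L : ℂ → ℂ} (hL : IsLFunction t L) (v : S) : |tau t v| ≤ 1 := by
  have h1 := hL.bound v
  have h2 := sqrt_pos' v
  unfold tau
  rw [abs_div, abs_of_pos (show 0 < 2 * √(nrm v.1 : ℝ) by positivity), div_le_one (by positivity)]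
  exact h1

theorem tau_mul (t : S → ℝ) (v : S) : 2 * tau t v * √(nrm v.1 : ℝ) = t v := by
  have h2 := (sqrt_pos' v).ne'
  unfold tau
  field_simp

theorem sum_pow {t : S → ℝ} {L : ℂ → ℂ} (hL : IsLFunction t L) (v : S) (k : ℕ) :
    ∑ j, al t v j ^ k = (powerSum (t v) (nrm v.1) k : ℂ) := by
  have h0 : (0 : ℝ) ≤ nrm v.1 := by linarith [q_two v.1]
  exact HS.rt_trace (tau_abs hL v) h0 (T := powerSum (t v) (nrm v.1)) rfl (tau_mul t v).symm
    (fun j => by rw [tau_mul]; rfl) k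

theorem pure {t : S → ℝ} {L : ℂ → ℂ} (hL : IsLFunction t L) : HS.EX.Pure 1 (al t) := by
  refine ⟨fun v j => ?_, fun v k => ?_⟩
  · unfold al
    rw [norm_mul, Complex.norm_real, Real.norm_of_nonneg (Real.sqrt_nonneg _)]
    have e : (HS.EX.nrm v.1 : ℝ) ^ (((1 : ℕ) : ℝ) / 2) = √(nrm v.1 : ℝ) := by
      rw [Real.sqrt_eq_rpow, Nat.cast_one]
      rfl
    rw [e]
    exact mul_le_of_le_one_left (Real.sqrt_nonneg _) (rt_norm (tau_abs hL v) j)
  · rw [sum_pow hL, Complex.ofReal_im]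

theorem centre_one : HS.CX.centre 1 = 1 := by
  unfold HS.CX.centre
  norm_num

theorem centre_onec : ((HS.CX.centre 1 : ℝ) : ℂ) = 1 := by
  rw [centre_one]
  norm_num

theorem factor_al {t : S → ℝ} {L : ℂ → ℂ} (hL : IsLFunction t L) (v : S) (s : ℂ) :
    HS.EX.factor (al t) v s =
      (1 - (t v : ℂ) * (nrm v.1 : ℂ) ^ (-(s - 1) - 1) + (nrm v.1 : ℂ) ^ (-2 * (s - 1) - 1))⁻¹ := by
  have h2 := q_two v.1
  have h0 : (0 : ℝ) ≤ nrm v.1 := by linarith
  have hn : ((nrm v.1 : ℕ) : ℂ) ≠ 0 := by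
    have : (nrm v.1 : ℝ) ≠ 0 := by linarith
    exact_mod_cast this
  have e1 : al t v 0 + al t v 1 = (t v : ℂ) := by
    have := sum_pow hL v 1
    simpa [Fin.sum_univ_two, powerSum] using this
  have e2 : al t v 0 * al t v 1 = (nrm v.1 : ℂ) := by
    have h3 := sum_pow hL v 2
    have h4 : powerSum (t v) (nrm v.1) 2 = t v * t v - nrm v.1 * 2 := rfl
    rw [Fin.sum_univ_two, h4] at h3
    have h5 : (al t v 0 + al t v 1) ^ 2 = (t v : ℂ) ^ 2 := by rw [e1]
    have h6 : 2 * (al t v 0 * al t v 1) = 2 * (nrm v.1 : ℂ) := by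
      push_cast at h3
      linear_combination h5 - h3
    exact mul_left_cancel₀ two_ne_zero h6
  have e3 : (nrm v.1 : ℂ) ^ (-2 * (s - 1) - 1) = (nrm v.1 : ℂ) * ((nrm v.1 : ℂ) ^ (-s)) ^ 2 := by
    rw [show -2 * (s - 1) - 1 = 1 + (2 : ℕ) * (-s) by push_cast; ring, Complex.cpow_add _ _ hn,
      Complex.cpow_one, Complex.cpow_nat_mul]
  have e4 : (-(s - 1) - 1 : ℂ) = -s := by ring
  unfold HS.EX.factor
  rw [Fin.prod_univ_two, ← mul_inv, e3, e4]
  congr 1
  change (1 - al t v 0 * (nrm v.1 : ℂ) ^ (-s)) * (1 - al t v 1 * (nrm v.1 : ℂ) ^ (-s)) = _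
  rw [← e1, ← e2]
  ring

theorem continuation {t : S → ℝ} {L : ℂ → ℂ} (hL : IsLFunction t L) :
    HS.CX.Continuation 1 (al t) (fun s => L (s - 1)) := by
  obtain ⟨η, C, κ, hη, h⟩ := hL.continuation
  refine ⟨fun s hs => ?_, η, |C| * 2 ^ κ, 0, κ, fun s => L (s - 1), hη, fun s hs => ?_⟩
  · simp only [factor_al hL]
    refine hL.prod (s - 1) ?_
    rw [Complex.sub_re, Complex.one_re]
    push_cast at hs
    linarith
  · rw [centre_one] at hs
    have h1 : -η < (s - 1).re := by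
      rw [Complex.sub_re, Complex.one_re]
      linarith
    refine ⟨DifferentiableAt.comp (g := L) (f := fun s : ℂ => s - 1) s (h _ h1).1 (by fun_prop),
      (h _ h1).2.trans ?_, fun _ => by rw [pow_zero, one_mul]⟩
    have h2 : 1 + ‖s - 1‖ ≤ 2 * (1 + ‖s‖) := by
      have := norm_sub_le s 1
      rw [norm_one] at this
      linarith [norm_nonneg s]
    calc C * (1 + ‖s - 1‖) ^ κ ≤ |C| * (2 * (1 + ‖s‖)) ^ κ :=
          mul_le_mul (le_abs_self _) (pow_le_pow_left₀ (by positivity) h2 κ) (by positivity)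
            (abs_nonneg _)
      _ = _ := by rw [mul_pow]; ring

theorem meanSquare_eq {t : S → ℝ} {L : ℂ → ℂ} (hL : IsLFunction t L) (ρ A : ℝ) :
    meanSquare t ρ A = HS.CX.meanSquare 1 (al t) ρ A := by
  unfold meanSquare HS.CX.meanSquare
  have h : ∀ Y, logP t Y = HS.CX.logP 1 (al t) Y := by
    intro Y
    unfold logP HS.CX.logP
    rw [centre_one]
    refine finsum_congr fun p => finsum_congr fun _ => ?_
    rw [sum_pow hL, Complex.ofReal_re, Real.rpow_one]
    rfl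
  simp only [h]

/-- **The rank formula for Hilbert modular forms and the critical line.** -/
theorem result (t : S → ℝ) (L : ℂ → ℂ) (hL : IsLFunction t L) :
    (∀ ρ A : ℝ, 0 < A →
      ((NoZeros L ∧ ∃ k : ℤ, ρ = k ∧ LeadingAt L k A) ↔ meanSquare t ρ A < ⊤) ∧
      (meanSquare t ρ A < ⊤ → meanSquare t ρ A = criticalLine L ρ A)) ∧
    ∀ ρ : ℤ, List.TFAE [
      NoZeros L ∧ meromorphicOrderAt L 0 = ρ,
      ∃ A : ℝ, 0 < A ∧ meanSquare t ρ A < ⊤,
      ∃ A : ℝ, 0 < A ∧ meanSquare t ρ A < ⊤ ∧ meanSquare t ρ A = criticalLine L ρ A] := by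
  have hP := pure hL
  have hC := continuation hL
  have hz : NoZeros L ↔ ∀ s : ℂ, HS.CX.centre 1 < s.re → L (s - 1) ≠ 0 := by
    rw [centre_one]
    constructor
    · intro h s hs
      exact h _ (by rw [Complex.sub_re, Complex.one_re]; linarith)
    · intro h s hs
      have := h (s + 1) (by rw [Complex.add_re, Complex.one_re]; linarith)
      rwa [add_sub_cancel_right] at this
  have hlead : ∀ (k : ℤ) (A : ℝ), LeadingAt L k A ↔
      Tendsto (fun s : ℂ => L (s - 1) / (s - HS.CX.centre 1) ^ k) (𝓝[≠] (HS.CX.centre 1 : ℂ))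
        (𝓝 (A : ℂ)) := by
    intro k A
    rw [HS.CX.lim_shift 1 (fun s => L (s - 1)) k]
    simp only [centre_onec, add_sub_cancel_right]
    rfl
  have hmain : ∀ ρ A : ℝ, 0 < A →
      ((NoZeros L ∧ ∃ k : ℤ, ρ = k ∧ LeadingAt L k A) ↔ meanSquare t ρ A < ⊤) ∧
      (meanSquare t ρ A < ⊤ → meanSquare t ρ A = criticalLine L ρ A) := by
    intro ρ A hA
    obtain ⟨h3, h4⟩ := HS.CX.main hP hC ρ hA
    rw [meanSquare_eq hL, hz]
    simp only [hlead]
    refine ⟨h3, fun h5 => (h4 h5).trans ?_⟩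
    unfold criticalLine
    simp only [centre_onec, add_sub_cancel_left]
  refine ⟨hmain, fun ρ => ?_⟩
  have hord : ∀ (k : ℤ) (A : ℝ), 0 < A → LeadingAt L k A → meromorphicOrderAt L 0 = k := by
    intro k A hA hlim
    obtain ⟨η, C, κ, hη, h⟩ := hL.continuation
    have hm : MeromorphicAt L 0 := by
      have hU : IsOpen {s : ℂ | -η < s.re} := isOpen_lt continuous_const Complex.continuous_re
      exact ((DifferentiableOn.analyticOnNhd (fun z hz => (h z hz).1.differentiableWithinAt) hU) 0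
        (show -η < (0 : ℂ).re by simpa using hη)).meromorphicAt
    exact HS.CX.ord_of_lim hm (A := (A : ℂ)) (by exact_mod_cast hA.ne') (by
      simpa only [sub_zero, LeadingAt] using hlim)
  tfae_have 1 → 3 := by
    rintro ⟨h1, h2⟩
    obtain ⟨k, A, hA, h3⟩ := HS.CX.exists_order hP hC (hz.1 h1)
    rw [← meanSquare_eq hL] at h3
    obtain ⟨-, k', hk', hlim⟩ := (hmain k A hA).1.2 h3
    have e1 : k = k' := by exact_mod_cast hk'
    have e2 : (ρ : WithTop ℤ) = (k' : WithTop ℤ) := by rw [← h2, hord k' A hA hlim]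
    have e3 : ρ = k := by
      rw [e1]
      exact_mod_cast e2
    rw [e3]
    exact ⟨A, hA, h3, (hmain k A hA).2 h3⟩
  tfae_have 3 → 2 := by
    rintro ⟨A, hA, h1, -⟩
    exact ⟨A, hA, h1⟩
  tfae_have 2 → 1 := by
    rintro ⟨A, hA, h1⟩
    obtain ⟨h2, k, hk, hlim⟩ := (hmain ρ A hA).1.2 h1
    have e1 : ρ = k := by exact_mod_cast hk
    rw [e1]
    exact ⟨h2, hord k A hA hlim⟩
  tfae_finish

end Pool.Agent.Results.MP_6e2fc3_nt.CriticalLineFormula
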