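import Pool.Agent.V1194.LP.Real

/-!
# The central order of the L-functions of Hilbert modular forms from the Hecke eigenvalues

Let `g` be a Hilbert newform over a totally real field `F` as in the Bloch–Kato rank formula (weights
`(k_1, …, k_d, 2)`, all `k_i` even, trivial central character, level `𝔫`), with Hecke eigenvalues `t_v`, and let
`L(g, s)` be its L-function with centre `s = 0`, where the Euler factors
`(1 - t_v q_v^{-s-1} + q_v^{-2s-1})⁻¹` are taken over a set `S` of primes `v ∤ 𝔫` containing almost all primes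
(the missing factors have no zeros and poles at `0`). It is entire, and `|t_v| ≤ 2√q_v`. Write
`p_k(v) = α_v^k + β_v^k` for the roots `α_v`, `β_v` of `X² - t_v X + q_v`, let `γ > π/2` be any real number and

`V_g(X) = ∑_{v ∈ S} ∑_{k ≥ 1} p_k(v)/(k q_v^k) · cos(γu)/Γ(1 + u)`,  `u = k log q_v / log X`.

(Without the weights, which tend to `1` for `X → ∞`, this would be the series for `log L(g, 0)`.) Then, for
EVERY `g` and without any hypothesis on the zeros of `L(g, s)`: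

1. `V_g(X)` converges absolutely and `V_g(X) = log |B| - r (log log X - λ_γ) + O(1/log X)`, where `r` is the
   order and `B` the leading coefficient of `L(g, s)` at `s = 0`, with an explicit constant `λ_γ`.
2. For every integer `ρ`: `r = ρ` if and only if `V_g(X) + ρ log log X` is bounded for `X → ∞`, `r ≥ ρ` if and
   only if it is bounded above, `r ≤ ρ` if and only if it is bounded below.

With `ρ = dim H¹_f(F, V_{g,λ})` this turns the formula of Bloch and Kato for `g` and `λ`, and each of the two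
inequalities in it, into a statement on the Hecke eigenvalues.
-/

set_option autoImplicit false

namespace Pool.Agent.Results.MP_6e2fc3_nt.OrderFromEigenvalues

open Filter Topology Set NumberField IsDedekindDomain

variable {F : Type} [Field F] [NumberField F]

/-- The norm `q_v` of a prime. -/
noncomputable def nrm (v : HeightOneSpectrum (𝓞 F)) : ℝ := (Ideal.absNorm v.asIdeal : ℝ)

/-- `α^k + β^k` for the roots `α`, `β` of `X² - tX + q` (the trace of the `k`-th power of the companion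
matrix). -/
noncomputable def powerSum (t q : ℝ) (k : ℕ) : ℝ :=
  ((!![t, -q; 1, 0] : Matrix (Fin 2) (Fin 2) ℝ) ^ k).trace

variable {S : Set (HeightOneSpectrum (𝓞 F))}

/-- `L(s)` is the L-function with the eigenvalues `t_v`, `v ∈ S`: `|t_v| ≤ 2√q_v`, `L(s)` is the product of the
Euler factors `(1 - t_v q_v^{-s-1} + q_v^{-2s-1})⁻¹` for `Re s > 1/2`, and it is meromorphic at the points of
the real interval `[0, 1/2]`. -/
structure IsLFunction (t : S → ℝ) (L : ℂ → ℂ) : Prop where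
  bound : ∀ v : S, |t v| ≤ 2 * √(nrm v.1)
  prod : ∀ s : ℂ, 1 / 2 < s.re → L s = ∏' v : S,
    (1 - (t v : ℂ) * (nrm v.1 : ℂ) ^ (-s - 1) + (nrm v.1 : ℂ) ^ (-2 * s - 1))⁻¹
  mero : ∀ x : ℝ, 0 ≤ x → x ≤ 1 / 2 → MeromorphicAt L (x : ℂ)

/-- The term `p_k(v)/(k q_v^k) · cos(γu)/Γ(1 + u)`, `u = k log q_v / log X`. -/
noncomputable def term (t : S → ℝ) (γ X : ℝ) (v : S) (k : ℕ) : ℝ :=
  powerSum (t v) (nrm v.1) k * Real.cos (γ * (k * Real.log (nrm v.1) / Real.log X)) /
    (k * nrm v.1 ^ k * Real.Gamma (1 + k * Real.log (nrm v.1) / Real.log X))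

/-- `V(X)`, the sum over `v ∈ S` and `k ≥ 1` (here `k = i.2 + 1`). -/
noncomputable def V (t : S → ℝ) (γ X : ℝ) : ℝ := ∑' i : S × ℕ, term t γ X i.1 (i.2 + 1)

/-- `λ_γ`, the real part of `∫_0^∞ (e^{-t} - e^{iγt}/Γ(1 + t)) dt/t`. -/
noncomputable def lam (γ : ℝ) : ℝ := (∫ t in Ioi (0 : ℝ),
  (Complex.exp (-(t : ℂ)) -
    Complex.exp ((γ * t : ℝ) * Complex.I) * ((Real.Gamma (1 + t))⁻¹ : ℝ)) / t).re

open Pool.Agent.V1194.LP

theorem q_two (v : HeightOneSpectrum (𝓞 F)) : 2 ≤ nrm v := by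
  unfold nrm
  exact_mod_cast Pool.Agent.H921R2.TatePole.two_le_nm v

theorem sq_le {t : S → ℝ} {L : ℂ → ℂ} (hL : IsLFunction t L) (v : S) :
    t v ^ 2 ≤ 4 * nrm v.1 := by
  have h1 := hL.bound v
  have h0 : 0 ≤ nrm v.1 := by linarith [q_two v.1]
  have h2 : t v ^ 2 ≤ (2 * √(nrm v.1)) ^ 2 := by
    rw [← sq_abs (t v)]
    exact pow_le_pow_left₀ (abs_nonneg _) h1 2
  rw [mul_pow, Real.sq_sqrt h0] at h2
  linarith

/-- the matrices -/
noncomputable def mat (t : S → ℝ) (v : S) : Matrix (Fin 2) (Fin 2) ℂ :=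
  cc (nrm v.1)⁻¹ (t v) (nrm v.1)

/-- the coefficients -/
noncomputable def cf (t : S → ℝ) (v : S) (k : ℕ) : ℝ :=
  (nrm v.1)⁻¹ ^ k * powerSum (t v) (nrm v.1) k

theorem eul {t : S → ℝ} {L : ℂ → ℂ} (hL : IsLFunction t L) :
    Pool.Agent.V11288.LZ.Eul 1 (-(1 / 2)) (fun v : S => nrm v.1) (mat t) := by
  refine Pool.Agent.V11288.LZ.eul_nf fun v z hz => ?_
  have h0 : 0 < nrm v.1 := by linarith [q_two v.1]
  rw [cc_root (inv_nonneg.2 h0.le) (sq_le hL v) hz]
  change (nrm v.1)⁻¹ * √(nrm v.1) ≤ nrm v.1 ^ (-(1 / 2) : ℝ)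
  rw [Real.rpow_neg h0.le, ← Real.sqrt_eq_rpow]
  have h1 : √(nrm v.1) * √(nrm v.1) = nrm v.1 := Real.mul_self_sqrt h0.le
  have h2 : 0 < √(nrm v.1) := Real.sqrt_pos.2 h0
  apply le_of_eq
  rw [inv_mul_eq_iff_eq_mul₀ h0.ne']
  field_simp
  rw [sq, h1]

theorem term_eq (t : S → ℝ) (γ X : ℝ) (i : S × ℕ) :
    ra (fun v : S => nrm v.1) (cf t) 0 γ X i = term t γ X i.1 (i.2 + 1) := by
  have h0 : nrm i.1.1 ≠ 0 := by linarith [q_two i.1.1]
  unfold ra term cf
  rw [Real.rpow_zero, one_pow, mul_one, inv_pow]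
  have h1 : nrm i.1.1 ^ (i.2 + 1) ≠ 0 := pow_ne_zero _ h0
  field_simp

theorem V_eq (t : S → ℝ) (γ X : ℝ) :
    ∑' i, ra (fun v : S => nrm v.1) (cf t) 0 γ X i = V t γ X :=
  tsum_congr fun i => term_eq t γ X i

/-- **The central order and leading coefficient from the Hecke eigenvalues.** -/
theorem result (t : S → ℝ) (L : ℂ → ℂ) (hL : IsLFunction t L) (γ : ℝ) (hγ : Real.pi / 2 < γ) :
    (∀ X : ℝ, 1 < X → Summable fun i : S × ℕ => |term t γ X i.1 (i.2 + 1)|) ∧
    ∃ (r : ℤ) (B : ℂ), B ≠ 0 ∧ meromorphicOrderAt L 0 = r ∧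
      Tendsto (fun s : ℂ => L s / s ^ r) (𝓝[≠] 0) (𝓝 B) ∧
      (fun X : ℝ => V t γ X - (Real.log ‖B‖ - r * (Real.log (Real.log X) - lam γ))) =O[atTop]
        (fun X : ℝ => 1 / Real.log X) ∧
      (∀ ρ : ℤ, r = ρ ↔
        ∃ C : ℝ, ∀ᶠ X : ℝ in atTop, |V t γ X + ρ * Real.log (Real.log X)| ≤ C) ∧
      (∀ ρ : ℤ, ρ ≤ r ↔
        ∃ C : ℝ, ∀ᶠ X : ℝ in atTop, V t γ X + ρ * Real.log (Real.log X) ≤ C) ∧
      (∀ ρ : ℤ, r ≤ ρ ↔
        ∃ C : ℝ, ∀ᶠ X : ℝ in atTop, C ≤ V t γ X + ρ * Real.log (Real.log X)) := by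
  have htr : ∀ (v : S) (k : ℕ), (mat t v ^ k).trace = (cf t v k : ℂ) := fun v k =>
    cc_trace _ _ _ k
  obtain ⟨h1, r, B, h2, h3, h4, h5, h6, h7, h8⟩ := real_package (eul hL) htr (L := L) 0
    (fun x hx => hL.mero x hx.1 (by linarith [hx.2])) (fun s hs => by
      rw [hL.prod s (by linarith)]
      refine tprod_congr fun v => ?_
      have h0 : (nrm v.1 : ℂ) ≠ 0 := by
        have : nrm v.1 ≠ 0 := by linarith [q_two v.1]
        exact_mod_cast this
      unfold mat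
      rw [cc_det]
      congr 1
      rw [Complex.cpow_sub _ _ h0, Complex.cpow_one, Complex.cpow_sub _ _ h0, Complex.cpow_one]
      have h9 : (nrm v.1 : ℂ) ^ (-2 * s) = ((nrm v.1 : ℂ) ^ (-s)) ^ 2 := by
        rw [show -2 * s = (2 : ℕ) * (-s) by push_cast; ring, Complex.cpow_nat_mul]
      rw [h9]
      push_cast
      field_simp) hγ
  simp only [V_eq, Complex.ofReal_zero, sub_zero] at h3 h4 h5 h6 h7 h8
  refine ⟨fun X hX => (h1 X hX).congr fun i => by rw [term_eq], r, B, h2, h3, h4, h5, h6, h7, h8⟩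

end Pool.Agent.Results.MP_6e2fc3_nt.OrderFromEigenvalues
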